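import Mathlib

/-!
# Real interactive proofs relative to an oracle

Blum-Shub-Smale machines over `ℝ` as programs with stacks of reals, with an oracle (a set of words
over `ℝ`), and the classes `P`, `NP`, `IP` over `ℝ` relative to this oracle. For the empty oracle
these are the notions of the problem file.
-/

set_option autoImplicit false

namespace Pool.Agent.RIP

/-- Instructions of a program with stacks of reals (the top of a stack is the head of the list):
* `push s a` puts the constant `a` on stack `s`;
* `pop s` removes the top of stack `s` (if there is one);
* `copy s u` puts the top of stack `s` on stack `u` (if there is one);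
* `add s`, `sub s`, `mul s` replace the two top entries `a, b` of stack `s` by `a + b`, `a - b`,
  `a * b` (nothing happens if there are fewer than two entries);
* `branch s i j k` goes to instruction `i` if stack `s` is empty, to `j` if its top is
  nonnegative and to `k` if its top is negative;
* `ask s i j` goes to instruction `i` if the word on stack `s` belongs to the oracle, and to `j`
  otherwise.
After the first six the program goes on with the next instruction. -/
inductive Instr : Type
  | push (s : ℕ) (a : ℝ)
  | pop (s : ℕ)
  | copy (s u : ℕ)
  | add (s : ℕ)
  | sub (s : ℕ)
  | mul (s : ℕ)
  | branch (s i j k : ℕ)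
  | ask (s i j : ℕ)

/-- A configuration: the number of the next instruction and the contents of the stacks. -/
structure Cfg (α : Type) : Type where
  pc : ℕ
  st : ℕ → List α

/-- Replace the two top entries of a stack by the value of an operation. -/
def bin {α : Type} (f : α → α → α) : List α → List α
  | a :: b :: l => f a b :: l
  | l => l

/-- One step of the program `Q` with the oracle `O`. The program halts when the number of the next
instruction is at least the length of `Q`; a halted configuration does not change. -/
noncomputable def step (O : Set (List ℝ)) (Q : List Instr) (c : Cfg ℝ) : Cfg ℝ :=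
  open Classical in
  match Q[c.pc]? with
  | none => c
  | some (Instr.push s a) => ⟨c.pc + 1, Function.update c.st s (a :: c.st s)⟩
  | some (Instr.pop s) => ⟨c.pc + 1, Function.update c.st s (c.st s).tail⟩
  | some (Instr.copy s u) =>
    ⟨c.pc + 1, Function.update c.st u ((c.st s).take 1 ++ c.st u)⟩
  | some (Instr.add s) => ⟨c.pc + 1, Function.update c.st s (bin (fun a b => a + b) (c.st s))⟩
  | some (Instr.sub s) => ⟨c.pc + 1, Function.update c.st s (bin (fun a b => a - b) (c.st s))⟩
  | some (Instr.mul s) => ⟨c.pc + 1, Function.update c.st s (bin (fun a b => a * b) (c.st s))⟩
  | some (Instr.branch s i j k) =>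
    match c.st s with
    | [] => ⟨i, c.st⟩
    | a :: _ => ⟨if 0 ≤ a then j else k, c.st⟩
  | some (Instr.ask s i j) => ⟨if c.st s ∈ O then i else j, c.st⟩

/-- The initial configuration: the input `x` on stack `0`, the random string `r` on stack `1`, the
replies `z` of the prover so far (the last one on top) on stack `2`, all other stacks empty. -/
def init {α : Type} (x r z : List α) : Cfg α :=
  ⟨0, fun s => if s = 0 then x else if s = 1 then r else if s = 2 then z else []⟩

/-- The configuration after `t` steps. -/
noncomputable def run (O : Set (List ℝ)) (Q : List Instr) (t : ℕ) (x r z : List ℝ) : Cfg ℝ :=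
  (step O Q)^[t] (init x r z)

/-- The output after `t` steps: the top of stack `3` (`0` if this stack is empty). -/
noncomputable def out (O : Set (List ℝ)) (Q : List Instr) (t : ℕ) (x r z : List ℝ) : ℝ :=
  ((run O Q t x r z).st 3).headD 0

/-- The program has halted after `t` steps. -/
def Halts (O : Set (List ℝ)) (Q : List Instr) (t : ℕ) (x r z : List ℝ) : Prop :=
  Q.length ≤ (run O Q t x r z).pc

/-- A random string as a word over `ℝ`. -/
def coins {k : ℕ} (r : Fin k → Bool) : List ℝ := List.ofFn (fun i => if r i then 1 else 0)

/-- The messages of the verifier and the replies of the prover in the first `i` rounds, the last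
ones first. In each round the verifier computes a real from the input, its random string and the
replies so far, and the prover answers by a real which depends on the messages of the verifier. -/
noncomputable def talk (O : Set (List ℝ)) (Q : List Instr) (t : ℕ) (x r : List ℝ)
    (P : List ℝ → ℝ) : ℕ → List ℝ × List ℝ
  | 0 => ([], [])
  | i + 1 =>
    let h := talk O Q t x r P i
    let w := out O Q t x r h.2 :: h.1
    (w, P w :: h.2)

/-- The number of random strings of length `k` for which the verifier `Q` accepts the input `x`
when it talks to the prover `P` for `m` rounds. -/
noncomputable def wins (O : Set (List ℝ)) (Q : List Instr) (t m k : ℕ) (x : List ℝ)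
    (P : List ℝ → ℝ) : ℕ :=
  {r : Fin k → Bool | out O Q t x (coins r) (talk O Q t x (coins r) P m).2 = 1}.ncard

end Pool.Agent.RIP
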