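import Mathlib
import Pool.Agent.RIP.Defs

/-!
# The classes `P`, `NP`, `IP` over `ℝ` relative to an oracle
-/

set_option autoImplicit false

namespace Pool.Agent.RIP

/-- The verifier `Q` with `m n` rounds, `k n` random bits and time `t n` per message on inputs of
length `n` is a real interactive protocol relative to `O` for the language `L`, with completeness
`c` and soundness error `s`: it halts in time; for `x ∈ L` some prover makes it accept with
probability at least `c`; for `x ∉ L` every prover makes it accept with probability at most `s`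
(inputs are nonempty words; the empty word plays no role). -/
def Protocol (O : Set (List ℝ)) (Q : List Instr) (m k t : ℕ → ℕ) (L : Set (List ℝ))
    (c s : ℝ) : Prop :=
  ∀ x : List ℝ, x ≠ [] →
    (∀ (r : Fin (k x.length) → Bool) (z : List ℝ), z.length ≤ m x.length →
      Halts O Q (t x.length) x (coins r) z) ∧
    (x ∈ L → ∃ P : List ℝ → ℝ,
      c * 2 ^ k x.length ≤ (wins O Q (t x.length) (m x.length) (k x.length) x P : ℝ)) ∧
    (x ∉ L → ∀ P : List ℝ → ℝ,
      (wins O Q (t x.length) (m x.length) (k x.length) x P : ℝ) ≤ s * 2 ^ k x.length)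

/-- The class `IP` over `ℝ` relative to `O`: protocols with polynomially many rounds and random
bits, polynomial time, completeness `1` and soundness error `1/4`. -/
def IP (O : Set (List ℝ)) : Set (Set (List ℝ)) :=
  {L | ∃ (Q : List Instr) (a b d : ℕ), Protocol O Q (fun n => (n + 2) ^ a)
    (fun n => (n + 2) ^ b) (fun n => (n + 2) ^ d) L 1 (1 / 4)}

/-- The class `NP` over `ℝ` relative to `O`: `x ∈ L` iff for some word `z` of polynomial length
the program outputs `1` on `x` (stack `0`) and `z` (stack `2`) in polynomial time. -/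
def NP (O : Set (List ℝ)) : Set (Set (List ℝ)) :=
  {L | ∃ (Q : List Instr) (a d : ℕ), ∀ x : List ℝ, x ≠ [] →
    (∀ z : List ℝ, z.length = (x.length + 2) ^ a → Halts O Q ((x.length + 2) ^ d) x [] z) ∧
    (x ∈ L ↔ ∃ z : List ℝ, z.length = (x.length + 2) ^ a ∧
      out O Q ((x.length + 2) ^ d) x [] z = 1)}

/-- The class `P` over `ℝ` relative to `O`: in polynomial time the program outputs `1` on the
inputs in `L` and `0` on the others. -/
def P (O : Set (List ℝ)) : Set (Set (List ℝ)) :=
  {L | ∃ (Q : List Instr) (d : ℕ), ∀ x : List ℝ, x ≠ [] →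
    Halts O Q ((x.length + 2) ^ d) x [] [] ∧
    (x ∈ L → out O Q ((x.length + 2) ^ d) x [] [] = 1) ∧
    (x ∉ L → out O Q ((x.length + 2) ^ d) x [] [] = 0)}

/-- The oracle `ℤ`: all words consisting of one integer. -/
def intOracle : Set (List ℝ) := {w | ∃ k : ℤ, w = [(k : ℝ)]}

/-- The language of the words consisting of one rational number. -/
def ratWords : Set (List ℝ) := {w | ∃ q : ℚ, w = [(q : ℝ)]}

end Pool.Agent.RIP
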