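import Mathlib
import Pool.Agent.RIP.Classes

/-!
# The verifier for the rational numbers with the oracle `ℤ`
-/

set_option autoImplicit false

namespace Pool.Agent.RIP

/-- Six stacks, the others empty. -/
def stk (a0 a1 a2 a3 a4 a5 : List ℝ) : ℕ → List ℝ
  | 0 => a0
  | 1 => a1
  | 2 => a2
  | 3 => a3
  | 4 => a4
  | 5 => a5
  | _ => []

theorem init_eq (x r z : List ℝ) : init x r z = ⟨0, stk x r z [] [] []⟩ := by
  unfold init
  congr 1
  funext s
  match s with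
  | 0 => rfl
  | 1 => rfl
  | 2 => rfl
  | 3 => rfl
  | 4 => rfl
  | 5 => rfl
  | n + 6 => rfl

section
variable (a0 a1 a2 a3 a4 a5 l : List ℝ)

theorem upd0 : Function.update (stk a0 a1 a2 a3 a4 a5) 0 l = stk l a1 a2 a3 a4 a5 := by
  funext s
  match s with
  | 0 => rfl
  | 1 => rfl
  | 2 => rfl
  | 3 => rfl
  | 4 => rfl
  | 5 => rfl
  | n + 6 => rfl

theorem upd3 : Function.update (stk a0 a1 a2 a3 a4 a5) 3 l = stk a0 a1 a2 l a4 a5 := by
  funext s
  match s with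
  | 0 => rfl
  | 1 => rfl
  | 2 => rfl
  | 3 => rfl
  | 4 => rfl
  | 5 => rfl
  | n + 6 => rfl

theorem upd4 : Function.update (stk a0 a1 a2 a3 a4 a5) 4 l = stk a0 a1 a2 a3 l a5 := by
  funext s
  match s with
  | 0 => rfl
  | 1 => rfl
  | 2 => rfl
  | 3 => rfl
  | 4 => rfl
  | 5 => rfl
  | n + 6 => rfl

theorem upd5 : Function.update (stk a0 a1 a2 a3 a4 a5) 5 l = stk a0 a1 a2 a3 a4 l := by
  funext s
  match s with
  | 0 => rfl
  | 1 => rfl
  | 2 => rfl
  | 3 => rfl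
  | 4 => rfl
  | 5 => rfl
  | n + 6 => rfl

end

/-- The verifier: the reply `q` on top of stack `2` must be an integer `≥ 1`, the input must have
one entry `y`, and `y * q` must be an integer. -/
def ratV : List Instr :=
  [.branch 0 13 1 1, .push 4 1, .copy 2 4, .sub 4, .branch 4 13 5 13, .copy 2 5, .ask 5 7 13,
    .copy 0 5, .mul 5, .ask 5 10 13, .pop 0, .branch 0 12 13 13, .push 3 1]

/-- A halted configuration stays as it is. -/
theorem iterate_halted (O : Set (List ℝ)) (Q : List Instr) (c : Cfg ℝ) (h : Q.length ≤ c.pc)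
    (t : ℕ) : (step O Q)^[t] c = c := by
  induction t with
  | zero => rfl
  | succ t ih =>
    rw [Function.iterate_succ_apply', ih]
    unfold step
    rw [List.getElem?_eq_none h]

theorem run_add (O : Set (List ℝ)) (Q : List Instr) (s t : ℕ) (x r z : List ℝ)
    (h : Halts O Q s x r z) : run O Q (t + s) x r z = run O Q s x r z := by
  unfold run
  rw [Function.iterate_add_apply]
  exact iterate_halted O Q _ h t

theorem run_of_le (O : Set (List ℝ)) (Q : List Instr) (s t : ℕ) (hst : s ≤ t) (x r z : List ℝ)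
    (h : Halts O Q s x r z) : run O Q t x r z = run O Q s x r z := by
  obtain ⟨u, rfl⟩ := Nat.exists_eq_add_of_le' hst
  exact run_add O Q s u x r z h

theorem Halts.mono {O : Set (List ℝ)} {Q : List Instr} {s t : ℕ} (hst : s ≤ t)
    {x r z : List ℝ} (h : Halts O Q s x r z) : Halts O Q t x r z := by
  unfold Halts
  rw [run_of_le O Q s t hst x r z h]
  exact h

section
variable (O : Set (List ℝ)) (a0 a1 a2 a3 a4 a5 : List ℝ)

theorem sv0e : step O ratV ⟨0, stk [] a1 a2 a3 a4 a5⟩ = ⟨13, stk [] a1 a2 a3 a4 a5⟩ := by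
  simp [step, ratV, stk]

theorem sv0 (y : ℝ) : step O ratV ⟨0, stk (y :: a0) a1 a2 a3 a4 a5⟩ =
    ⟨1, stk (y :: a0) a1 a2 a3 a4 a5⟩ := by
  simp [step, ratV, stk]

theorem sv1 : step O ratV ⟨1, stk a0 a1 a2 a3 a4 a5⟩ = ⟨2, stk a0 a1 a2 a3 (1 :: a4) a5⟩ := by
  simp [step, ratV, stk, upd4]

theorem sv2 : step O ratV ⟨2, stk a0 a1 a2 a3 a4 a5⟩ =
    ⟨3, stk a0 a1 a2 a3 (a2.take 1 ++ a4) a5⟩ := by
  simp [step, ratV, stk, upd4]

theorem sv3 : step O ratV ⟨3, stk a0 a1 a2 a3 a4 a5⟩ =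
    ⟨4, stk a0 a1 a2 a3 (bin (fun a b => a - b) a4) a5⟩ := by
  simp [step, ratV, stk, upd4]

theorem sv4p (q : ℝ) (h : 0 ≤ q) : step O ratV ⟨4, stk a0 a1 a2 a3 (q :: a4) a5⟩ =
    ⟨5, stk a0 a1 a2 a3 (q :: a4) a5⟩ := by
  simp [step, ratV, stk, h]

theorem sv4n (q : ℝ) (h : ¬ 0 ≤ q) : step O ratV ⟨4, stk a0 a1 a2 a3 (q :: a4) a5⟩ =
    ⟨13, stk a0 a1 a2 a3 (q :: a4) a5⟩ := by
  simp only [step, ratV, stk]
  simp [h]

theorem sv5 : step O ratV ⟨5, stk a0 a1 a2 a3 a4 a5⟩ =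
    ⟨6, stk a0 a1 a2 a3 a4 (a2.take 1 ++ a5)⟩ := by
  simp [step, ratV, stk, upd5]

theorem sv6p (h : a5 ∈ O) : step O ratV ⟨6, stk a0 a1 a2 a3 a4 a5⟩ =
    ⟨7, stk a0 a1 a2 a3 a4 a5⟩ := by
  simp [step, ratV, stk, h]

theorem sv6n (h : a5 ∉ O) : step O ratV ⟨6, stk a0 a1 a2 a3 a4 a5⟩ =
    ⟨13, stk a0 a1 a2 a3 a4 a5⟩ := by
  simp [step, ratV, stk, h]

theorem sv7 : step O ratV ⟨7, stk a0 a1 a2 a3 a4 a5⟩ =
    ⟨8, stk a0 a1 a2 a3 a4 (a0.take 1 ++ a5)⟩ := by
  simp [step, ratV, stk, upd5]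

theorem sv8 : step O ratV ⟨8, stk a0 a1 a2 a3 a4 a5⟩ =
    ⟨9, stk a0 a1 a2 a3 a4 (bin (fun a b => a * b) a5)⟩ := by
  simp [step, ratV, stk, upd5]

theorem sv9p (h : a5 ∈ O) : step O ratV ⟨9, stk a0 a1 a2 a3 a4 a5⟩ =
    ⟨10, stk a0 a1 a2 a3 a4 a5⟩ := by
  simp [step, ratV, stk, h]

theorem sv9n (h : a5 ∉ O) : step O ratV ⟨9, stk a0 a1 a2 a3 a4 a5⟩ =
    ⟨13, stk a0 a1 a2 a3 a4 a5⟩ := by
  simp [step, ratV, stk, h]

theorem sv10 : step O ratV ⟨10, stk a0 a1 a2 a3 a4 a5⟩ =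
    ⟨11, stk a0.tail a1 a2 a3 a4 a5⟩ := by
  simp [step, ratV, stk, upd0]

theorem sv11e : step O ratV ⟨11, stk [] a1 a2 a3 a4 a5⟩ = ⟨12, stk [] a1 a2 a3 a4 a5⟩ := by
  simp [step, ratV, stk]

theorem sv11 (y : ℝ) : step O ratV ⟨11, stk (y :: a0) a1 a2 a3 a4 a5⟩ =
    ⟨13, stk (y :: a0) a1 a2 a3 a4 a5⟩ := by
  simp [step, ratV, stk]

theorem sv12 : step O ratV ⟨12, stk a0 a1 a2 a3 a4 a5⟩ =
    ⟨13, stk a0 a1 a2 (1 :: a3) a4 a5⟩ := by
  simp [step, ratV, stk, upd3]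

theorem sv13 : step O ratV ⟨13, stk a0 a1 a2 a3 a4 a5⟩ =
    ⟨13, stk a0 a1 a2 a3 a4 a5⟩ := by
  simp [step, ratV]

end

/-- What the verifier does in 13 steps. -/
theorem ratV_run (O : Set (List ℝ)) (hO : [] ∉ O) (x r z : List ℝ) :
    Halts O ratV 13 x r z ∧
    (out O ratV 13 x r z = 1 ↔ ∃ y q zs, x = [y] ∧ z = q :: zs ∧ 1 ≤ q ∧ [q] ∈ O ∧ [y * q] ∈ O) := by
  classical
  unfold Halts out run
  rw [init_eq]
  simp only [Function.iterate_succ, Function.iterate_zero, Function.comp_apply, id_eq]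
  have hlen : ratV.length = 13 := rfl
  rw [hlen]
  rcases x with _ | ⟨y, xs⟩
  · simp [sv0e, sv13, stk]
  rcases z with _ | ⟨q, zs⟩
  · simp [sv0, sv1, sv2, sv3, bin, sv4p, sv5, sv6n, hO, sv13, stk]
  by_cases h1 : 0 ≤ q - 1
  · have h1' : 1 ≤ q := by linarith
    by_cases h2 : [q] ∈ O
    · by_cases h3 : [y * q] ∈ O
      · rcases xs with _ | ⟨y', xs⟩
        · simp only [sv0, sv1, sv2, sv3, bin, List.take_succ_cons, List.take_zero,
            List.cons_append, List.nil_append, sv4p _ _ _ _ _ _ _ _ h1, sv5,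
            sv6p _ _ _ _ _ _ _ h2, sv7, sv8, sv9p _ _ _ _ _ _ _ h3, sv10, List.tail_cons,
            sv11e, sv12]
          simp [stk, h1', h2, h3]
        · simp only [sv0, sv1, sv2, sv3, bin, List.take_succ_cons, List.take_zero,
            List.cons_append, List.nil_append, sv4p _ _ _ _ _ _ _ _ h1, sv5,
            sv6p _ _ _ _ _ _ _ h2, sv7, sv8, sv9p _ _ _ _ _ _ _ h3, sv10, List.tail_cons,
            sv11, sv13]
          simp [stk]
      · simp only [sv0, sv1, sv2, sv3, bin, List.take_succ_cons, List.take_zero,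
          List.cons_append, List.nil_append, sv4p _ _ _ _ _ _ _ _ h1, sv5,
          sv6p _ _ _ _ _ _ _ h2, sv7, sv8, sv9n _ _ _ _ _ _ _ h3, sv13]
        simp only [stk, List.headD_nil, le_refl, true_and]
        constructor
        · intro h; norm_num at h
        · rintro ⟨y', q', zs', h4, h5, -, -, h6⟩
          simp only [List.cons.injEq] at h4 h5
          rw [← h4.1, ← h5.1] at h6
          exact absurd h6 h3
    · simp only [sv0, sv1, sv2, sv3, bin, List.take_succ_cons, List.take_zero,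
        List.cons_append, List.nil_append, sv4p _ _ _ _ _ _ _ _ h1, sv5,
        sv6n _ _ _ _ _ _ _ h2, sv13]
      simp only [stk, List.headD_nil, le_refl, true_and]
      constructor
      · intro h; norm_num at h
      · rintro ⟨y', q', zs', h4, h5, -, h6, -⟩
        simp only [List.cons.injEq] at h4 h5
        rw [← h5.1] at h6
        exact absurd h6 h2
  · simp only [sv0, sv1, sv2, sv3, bin, List.take_succ_cons, List.take_zero,
      List.cons_append, List.nil_append, sv4n _ _ _ _ _ _ _ _ h1, sv13]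
    simp only [stk, List.headD_nil, le_refl, true_and]
    constructor
    · intro h; norm_num at h
    · rintro ⟨y', q', zs', h4, h5, h6, -, -⟩
      simp only [List.cons.injEq] at h4 h5
      rw [← h5.1] at h6
      exact absurd (by linarith : (0 : ℝ) ≤ q - 1) h1

end Pool.Agent.RIP
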