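import Mathlib
import Pool.Agent.RIP.IntV

/-!
# An oracle relative to which `IP` over `ℝ` collapses to `P`
-/

set_option autoImplicit false

namespace Pool.Agent.RIP

open Set

/-! ### Locality: short queries only -/

section Local

variable {O O' : Set (List ℝ)} {N : ℕ}

theorem bin_length (f : ℝ → ℝ → ℝ) (l : List ℝ) : (bin f l).length ≤ l.length := by
  match l with
  | [] => simp [bin]
  | [a] => simp [bin]
  | a :: b :: l => simp [bin]

theorem step_length (O : Set (List ℝ)) (Q : List Instr) (c : Cfg ℝ)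
    (hc : ∀ s, (c.st s).length ≤ N) : ∀ s, ((step O Q c).st s).length ≤ N + 1 := by
  classical
  have upd : ∀ (s : ℕ) (l : List ℝ), l.length ≤ N + 1 →
      ∀ u, (Function.update c.st s l u).length ≤ N + 1 := by
    intro s l hl u
    by_cases h : u = s
    · subst h
      simpa using hl
    · rw [Function.update_of_ne h]
      exact (hc u).trans (Nat.le_succ N)
  intro v
  unfold step
  cases hq : Q[c.pc]? with
  | none => exact (hc v).trans (Nat.le_succ N)
  | some q =>
    cases q with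
    | push s a => exact upd s _ (by simpa using hc s) v
    | pop s => exact upd s _ (by have := hc s; simp; omega) v
    | copy s u =>
      refine upd u _ ?_ v
      have := hc u
      simp only [List.length_append, List.length_take]
      omega
    | add s => exact upd s _ ((bin_length _ _).trans ((hc s).trans (Nat.le_succ N))) v
    | sub s => exact upd s _ ((bin_length _ _).trans ((hc s).trans (Nat.le_succ N))) v
    | mul s => exact upd s _ ((bin_length _ _).trans ((hc s).trans (Nat.le_succ N))) v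
    | branch s i j k =>
      dsimp only
      cases c.st s with
      | nil => exact (hc v).trans (Nat.le_succ N)
      | cons a l => exact (hc v).trans (Nat.le_succ N)
    | ask s i j => exact (hc v).trans (Nat.le_succ N)

theorem step_congr (h : ∀ w : List ℝ, w.length ≤ N → (w ∈ O ↔ w ∈ O')) (Q : List Instr)
    (c : Cfg ℝ) (hc : ∀ s, (c.st s).length ≤ N) : step O Q c = step O' Q c := by
  unfold step
  cases hq : Q[c.pc]? with
  | none => rfl
  | some q =>
    cases q with
    | ask s i j =>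
      have h1 := h _ (hc s)
      by_cases h2 : c.st s ∈ O
      · have h3 := h1.1 h2
        simp [h2, h3]
      · have h3 : c.st s ∉ O' := fun h4 => h2 (h1.2 h4)
        simp [h2, h3]
    | _ => rfl

theorem run_congr (h : ∀ w : List ℝ, w.length ≤ N → (w ∈ O ↔ w ∈ O')) (Q : List Instr)
    (t : ℕ) (x r z : List ℝ) (hN : x.length + r.length + z.length + t ≤ N) :
    run O Q t x r z = run O' Q t x r z ∧
      ∀ s, ((run O Q t x r z).st s).length ≤ x.length + r.length + z.length + t := by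
  induction t with
  | zero =>
    refine ⟨rfl, fun s => ?_⟩
    simp only [run, Function.iterate_zero, id, init]
    split_ifs <;> simp <;> omega
  | succ t ih =>
    obtain ⟨h1, h2⟩ := ih (by omega)
    unfold run at h1 h2 ⊢
    rw [Function.iterate_succ_apply', Function.iterate_succ_apply', ← h1]
    refine ⟨step_congr h Q _ (fun s => (h2 s).trans (by omega)), fun s => ?_⟩
    exact step_length O Q _ h2 s

theorem out_congr (h : ∀ w : List ℝ, w.length ≤ N → (w ∈ O ↔ w ∈ O')) (Q : List Instr)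
    (t : ℕ) (x r z : List ℝ) (hN : x.length + r.length + z.length + t ≤ N) :
    out O Q t x r z = out O' Q t x r z := by
  unfold out
  rw [(run_congr h Q t x r z hN).1]

theorem talk_length (O : Set (List ℝ)) (Q : List Instr) (t : ℕ) (x r : List ℝ)
    (P : List ℝ → ℝ) (i : ℕ) : (talk O Q t x r P i).2.length = i := by
  induction i with
  | zero => rfl
  | succ i ih => simp [talk, ih]

theorem talk_congr (h : ∀ w : List ℝ, w.length ≤ N → (w ∈ O ↔ w ∈ O')) (Q : List Instr)
    (t : ℕ) (x r : List ℝ) (P : List ℝ → ℝ) (i : ℕ)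
    (hN : x.length + r.length + i + t ≤ N) :
    talk O Q t x r P i = talk O' Q t x r P i := by
  induction i with
  | zero => rfl
  | succ i ih =>
    simp only [talk]
    rw [← ih (by omega), out_congr h Q t x r _ (by rw [talk_length]; omega)]

theorem coins_length {k : ℕ} (r : Fin k → Bool) : (coins r).length = k := by
  simp [coins]

theorem wins_congr (h : ∀ w : List ℝ, w.length ≤ N → (w ∈ O ↔ w ∈ O')) (Q : List Instr)
    (t m k : ℕ) (x : List ℝ) (P : List ℝ → ℝ) (hN : x.length + k + m + t ≤ N) :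
    wins O Q t m k x P = wins O' Q t m k x P := by
  unfold wins
  congr 1
  ext r
  have h1 := talk_congr h Q t x (coins r) P m (by rw [coins_length]; omega)
  have h2 := out_congr h Q t x (coins r) (talk O' Q t x (coins r) P m).2
    (by rw [coins_length, talk_length]; omega)
  simp only [Set.mem_ofPred_eq]
  rw [h1, h2]

end Local

/-! ### Protocols as real numbers -/

/-- A protocol: the program and the three exponents. -/
abbrev Code : Type := List Instr × ℕ × ℕ × ℕ

/-- Instructions as tuples. -/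
noncomputable def encI : Instr → ℕ × ℕ × ℕ × ℕ × ℕ × ℝ
  | .push s a => (0, s, 0, 0, 0, a)
  | .pop s => (1, s, 0, 0, 0, 0)
  | .copy s u => (2, s, u, 0, 0, 0)
  | .add s => (3, s, 0, 0, 0, 0)
  | .sub s => (4, s, 0, 0, 0, 0)
  | .mul s => (5, s, 0, 0, 0, 0)
  | .branch s i j k => (6, s, i, j, k, 0)
  | .ask s i j => (7, s, i, j, 0, 0)

theorem encI_injective : Function.Injective encI := by
  intro a b h
  cases a <;> cases b <;> simp_all [encI]

open Cardinal in
theorem exists_code : Nonempty (Code × Bool ↪ ℝ) := by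
  have hN : #ℕ ≤ #ℝ := by
    rw [mk_real]
    exact mk_le_aleph0.trans aleph0_le_continuum
  have h0 : ℵ₀ ≤ #ℝ := by
    rw [mk_real]
    exact aleph0_le_continuum
  have hmul : ∀ α β : Type, #α ≤ #ℝ → #β ≤ #ℝ → #(α × β) ≤ #ℝ := by
    intro α β h1 h2
    rw [mk_prod, lift_id, lift_id]
    exact mul_le_of_le h0 h1 h2
  have hI : #Instr ≤ #ℝ := (mk_le_of_injective encI_injective).trans
    (hmul _ _ hN (hmul _ _ hN (hmul _ _ hN (hmul _ _ hN (hmul _ _ hN le_rfl)))))
  have hL : #(List Instr) ≤ #ℝ := (mk_list_le_max Instr).trans (max_le h0 hI)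
  have hB : #Bool ≤ #ℝ := (mk_le_aleph0).trans h0
  have h := hmul _ _ (hmul _ _ hL (hmul _ _ hN (hmul _ _ hN hN))) hB
  exact (le_def _ _).1 h

/-- The query words: a code, `p` zeros, a one, and the input. -/
def word (c : ℝ) (p : ℕ) (x : List ℝ) : List ℝ := c :: (List.replicate p 0 ++ 1 :: x)

theorem word_length (c : ℝ) (p : ℕ) (x : List ℝ) : (word c p x).length = p + x.length + 2 := by
  simp [word]
  omega

theorem word_inj {c c' : ℝ} {p p' : ℕ} {x x' : List ℝ} (h : word c p x = word c' p' x') :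
    c = c' ∧ p = p' ∧ x = x' := by
  unfold word at h
  rw [List.cons.injEq] at h
  obtain ⟨h1, h2⟩ := h
  refine ⟨h1, ?_⟩
  clear h1
  induction p generalizing p' with
  | zero =>
    cases p' with
    | zero => simpa using h2
    | succ p' => simp [List.replicate_succ] at h2
  | succ p ih =>
    cases p' with
    | zero => simp [List.replicate_succ] at h2
    | succ p' =>
      simp only [List.replicate_succ, List.cons_append, List.cons.injEq, true_and] at h2
      obtain ⟨h3, h4⟩ := ih h2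
      exact ⟨by rw [h3], h4⟩

/-- A bound of the length of the queries of a protocol on inputs of length `n`. -/
def bd (τ : Code) (n : ℕ) : ℕ :=
  n + (n + 2) ^ τ.2.2.1 + (n + 2) ^ τ.2.1 + (n + 2) ^ τ.2.2.2

/-- Some prover convinces the verifier for all random strings. -/
def acc (O : Set (List ℝ)) (τ : Code) (x : List ℝ) : Prop :=
  ∃ P : List ℝ → ℝ, (1 : ℝ) * 2 ^ ((x.length + 2) ^ τ.2.2.1) ≤
    (wins O τ.1 ((x.length + 2) ^ τ.2.2.2) ((x.length + 2) ^ τ.2.1)
      ((x.length + 2) ^ τ.2.2.1) x P : ℝ)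

theorem acc_congr {O O' : Set (List ℝ)} {N : ℕ}
    (h : ∀ w : List ℝ, w.length ≤ N → (w ∈ O ↔ w ∈ O')) (τ : Code) (x : List ℝ)
    (hN : bd τ x.length ≤ N) : acc O τ x ↔ acc O' τ x := by
  unfold acc
  refine exists_congr fun P => ?_
  rw [wins_congr h τ.1 _ _ _ x P hN]

section Oracle

variable (e : Code × Bool ↪ ℝ)

/-- One more level of the oracle. -/
def lev (O : Set (List ℝ)) : Set (List ℝ) :=
  {w | ∃ (τ : Code) (b : Bool) (p : ℕ) (x : List ℝ), w = word (e (τ, b)) p x ∧
    bd τ x.length ≤ p ∧ (b = true → acc O τ x)}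

/-- The oracle up to length `n`. -/
def stage : ℕ → Set (List ℝ)
  | 0 => ∅
  | n + 1 => {w | (w.length ≤ n ∧ w ∈ stage n) ∨ (w.length = n + 1 ∧ w ∈ lev e (stage n))}

/-- The oracle. -/
def colOracle : Set (List ℝ) := {w | w ∈ stage e w.length}

theorem stage_iff (n : ℕ) (w : List ℝ) (h : w.length ≤ n) :
    w ∈ colOracle e ↔ w ∈ stage e n := by
  induction n with
  | zero =>
    have : w.length = 0 := by omega
    show w ∈ stage e w.length ↔ _
    rw [this]
  | succ n ih =>
    rcases Nat.lt_or_ge n w.length with h1 | h1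
    · have : w.length = n + 1 := by omega
      show w ∈ stage e w.length ↔ _
      rw [this]
    · rw [ih h1]
      show w ∈ stage e n ↔ (w.length ≤ n ∧ w ∈ stage e n) ∨
        (w.length = n + 1 ∧ w ∈ lev e (stage e n))
      constructor
      · exact fun h2 => Or.inl ⟨h1, h2⟩
      · rintro (h2 | h2)
        · exact h2.2
        · omega

theorem mem_col (τ : Code) (b : Bool) (p : ℕ) (x : List ℝ) :
    word (e (τ, b)) p x ∈ colOracle e ↔
      bd τ x.length ≤ p ∧ (b = true → acc (colOracle e) τ x) := by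
  have hl := word_length (e (τ, b)) p x
  have h1 : word (e (τ, b)) p x ∈ colOracle e ↔
      word (e (τ, b)) p x ∈ lev e (stage e (p + x.length + 1)) := by
    rw [stage_iff e (p + x.length + 1 + 1) _ (by omega)]
    show (_ ∧ _) ∨ (_ ∧ _) ↔ _
    constructor
    · rintro (h | h)
      · omega
      · exact h.2
    · exact fun h => Or.inr ⟨by omega, h⟩
  rw [h1]
  have h2 : ∀ (τ : Code), bd τ x.length ≤ p →
      (acc (colOracle e) τ x ↔ acc (stage e (p + x.length + 1)) τ x) := fun τ hτ =>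
    acc_congr (stage_iff e (p + x.length + 1)) τ x (by omega)
  constructor
  · rintro ⟨τ', b', p', x', h3, h4, h5⟩
    obtain ⟨h6, rfl, rfl⟩ := word_inj h3
    have h7 := e.injective h6
    rw [Prod.mk.injEq] at h7
    obtain ⟨rfl, rfl⟩ := h7
    exact ⟨h4, fun hb => (h2 _ h4).2 (h5 hb)⟩
  · rintro ⟨h3, h4⟩
    exact ⟨τ, b, p, x, rfl, h3, fun hb => (h2 _ h3).1 (h4 hb)⟩

/-! ### The program -/

/-- The program which finds a sufficient padding with the help of the oracle, asks for the value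
of the protocol `τ`, and outputs `u` if the answer is yes and `v` otherwise. -/
noncomputable def askV (τ : Code) (u v : ℝ) : List Instr :=
  [.push 0 1, .push 0 (e (τ, false)), .ask 0 6 3, .pop 0, .push 0 0, .branch 0 1 1 1,
    .pop 0, .push 0 (e (τ, true)), .ask 0 9 11, .push 3 u, .branch 0 12 12 12, .push 3 v]

section
variable (O : Set (List ℝ)) (τ : Code) (u v : ℝ) (a0 a1 a2 a3 a4 a5 : List ℝ)

theorem sa0 : step O (askV e τ u v) ⟨0, stk a0 a1 a2 a3 a4 a5⟩ =
    ⟨1, stk (1 :: a0) a1 a2 a3 a4 a5⟩ := by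
  simp [step, askV, stk, upd0]

theorem sa1 : step O (askV e τ u v) ⟨1, stk a0 a1 a2 a3 a4 a5⟩ =
    ⟨2, stk (e (τ, false) :: a0) a1 a2 a3 a4 a5⟩ := by
  simp [step, askV, stk, upd0]

theorem sa2p (h : a0 ∈ O) : step O (askV e τ u v) ⟨2, stk a0 a1 a2 a3 a4 a5⟩ =
    ⟨6, stk a0 a1 a2 a3 a4 a5⟩ := by
  simp [step, askV, stk, h]

theorem sa2n (h : a0 ∉ O) : step O (askV e τ u v) ⟨2, stk a0 a1 a2 a3 a4 a5⟩ =
    ⟨3, stk a0 a1 a2 a3 a4 a5⟩ := by
  simp [step, askV, stk, h]

theorem sa3 : step O (askV e τ u v) ⟨3, stk a0 a1 a2 a3 a4 a5⟩ =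
    ⟨4, stk a0.tail a1 a2 a3 a4 a5⟩ := by
  simp [step, askV, stk, upd0]

theorem sa4 : step O (askV e τ u v) ⟨4, stk a0 a1 a2 a3 a4 a5⟩ =
    ⟨5, stk (0 :: a0) a1 a2 a3 a4 a5⟩ := by
  simp [step, askV, stk, upd0]

theorem sa5 : step O (askV e τ u v) ⟨5, stk a0 a1 a2 a3 a4 a5⟩ =
    ⟨1, stk a0 a1 a2 a3 a4 a5⟩ := by
  cases a0 <;> simp [step, askV, stk]

theorem sa6 : step O (askV e τ u v) ⟨6, stk a0 a1 a2 a3 a4 a5⟩ =
    ⟨7, stk a0.tail a1 a2 a3 a4 a5⟩ := by
  simp [step, askV, stk, upd0]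

theorem sa7 : step O (askV e τ u v) ⟨7, stk a0 a1 a2 a3 a4 a5⟩ =
    ⟨8, stk (e (τ, true) :: a0) a1 a2 a3 a4 a5⟩ := by
  simp [step, askV, stk, upd0]

theorem sa8p (h : a0 ∈ O) : step O (askV e τ u v) ⟨8, stk a0 a1 a2 a3 a4 a5⟩ =
    ⟨9, stk a0 a1 a2 a3 a4 a5⟩ := by
  simp [step, askV, stk, h]

theorem sa8n (h : a0 ∉ O) : step O (askV e τ u v) ⟨8, stk a0 a1 a2 a3 a4 a5⟩ =
    ⟨11, stk a0 a1 a2 a3 a4 a5⟩ := by
  simp [step, askV, stk, h]

theorem sa9 : step O (askV e τ u v) ⟨9, stk a0 a1 a2 a3 a4 a5⟩ =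
    ⟨10, stk a0 a1 a2 (u :: a3) a4 a5⟩ := by
  simp [step, askV, stk, upd3]

theorem sa10 : step O (askV e τ u v) ⟨10, stk a0 a1 a2 a3 a4 a5⟩ =
    ⟨12, stk a0 a1 a2 a3 a4 a5⟩ := by
  cases a0 <;> simp [step, askV, stk]

theorem sa11 : step O (askV e τ u v) ⟨11, stk a0 a1 a2 a3 a4 a5⟩ =
    ⟨12, stk a0 a1 a2 (v :: a3) a4 a5⟩ := by
  simp [step, askV, stk, upd3]

theorem sa12 : step O (askV e τ u v) ⟨12, stk a0 a1 a2 a3 a4 a5⟩ =
    ⟨12, stk a0 a1 a2 a3 a4 a5⟩ := by
  simp [step, askV]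

end

/-- The loop which increases the padding. -/
theorem ask_loop (τ : Code) (u v : ℝ) (x a1 a2 a3 a4 a5 : List ℝ) (p : ℕ)
    (hp : p ≤ bd τ x.length) :
    (step (colOracle e) (askV e τ u v))^[5 * p] ⟨1, stk (1 :: x) a1 a2 a3 a4 a5⟩ =
      ⟨1, stk (List.replicate p 0 ++ 1 :: x) a1 a2 a3 a4 a5⟩ := by
  induction p with
  | zero => rfl
  | succ p ih =>
    have h : e (τ, false) :: (List.replicate p 0 ++ 1 :: x) ∉ colOracle e := by
      intro h
      have := ((mem_col e τ false p x).1 h).1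
      omega
    rw [show 5 * (p + 1) = 5 + 5 * p by ring, Function.iterate_add_apply, ih (by omega)]
    simp only [Function.iterate_succ, Function.iterate_zero, Function.comp_apply, id_eq]
    rw [sa1, sa2n _ _ _ _ _ _ _ _ _ _ _ h, sa3, sa4, sa5]
    rfl

/-- The program finds the answer in time `5 * bd + 8`. -/
theorem ask_run (τ : Code) (u v : ℝ) (x r z : List ℝ) :
    Halts (colOracle e) (askV e τ u v) (5 * bd τ x.length + 8) x r z ∧
    (acc (colOracle e) τ x →
      out (colOracle e) (askV e τ u v) (5 * bd τ x.length + 8) x r z = u) ∧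
    (¬ acc (colOracle e) τ x →
      out (colOracle e) (askV e τ u v) (5 * bd τ x.length + 8) x r z = v) := by
  have hlen : (askV e τ u v).length = 12 := rfl
  have h0 : e (τ, false) :: (List.replicate (bd τ x.length) 0 ++ 1 :: x) ∈ colOracle e :=
    (mem_col e τ false _ x).2 ⟨le_rfl, by simp⟩
  have h1 := mem_col e τ true (bd τ x.length) x
  have h2 : run (colOracle e) (askV e τ u v) (5 * bd τ x.length + 8) x r z =
      (step (colOracle e) (askV e τ u v))^[7] ⟨1, stk (List.replicate (bd τ x.length) 0 ++ 1 :: x)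
        r z [] [] []⟩ := by
    unfold run
    rw [init_eq, show 5 * bd τ x.length + 8 = 7 + (5 * bd τ x.length + 1) by ring,
      Function.iterate_add_apply, Function.iterate_succ_apply _ (5 * bd τ x.length), sa0,
      ask_loop e τ u v x _ _ _ _ _ _ le_rfl]
  unfold Halts out
  rw [h2, hlen]
  simp only [Function.iterate_succ, Function.iterate_zero, Function.comp_apply, id_eq]
  rw [sa1, sa2p _ _ _ _ _ _ _ _ _ _ _ h0, sa6, sa7, List.tail_cons]
  by_cases hA : acc (colOracle e) τ x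
  · have h3 : e (τ, true) :: (List.replicate (bd τ x.length) 0 ++ 1 :: x) ∈ colOracle e :=
      h1.2 ⟨le_rfl, fun _ => hA⟩
    rw [sa8p _ _ _ _ _ _ _ _ _ _ _ h3, sa9, sa10]
    exact ⟨le_rfl, fun _ => rfl, fun h => absurd hA h⟩
  · have h3 : e (τ, true) :: (List.replicate (bd τ x.length) 0 ++ 1 :: x) ∉ colOracle e :=
      fun h => hA ((h1.1 h).2 rfl)
    rw [sa8n _ _ _ _ _ _ _ _ _ _ _ h3, sa11, sa12]
    exact ⟨le_rfl, fun h => absurd h hA, fun _ => rfl⟩

theorem time_le (τ : Code) (n : ℕ) :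
    5 * bd τ n + 8 ≤ (n + 2) ^ (τ.2.1 + τ.2.2.1 + τ.2.2.2 + 6) := by
  set E := τ.2.1 + τ.2.2.1 + τ.2.2.2 + 1 with hE
  have hm : ∀ i ≤ E, (n + 2) ^ i ≤ (n + 2) ^ E := fun i hi =>
    Nat.pow_le_pow_right (by omega) hi
  have h1 := hm τ.2.1 (by omega)
  have h2 := hm τ.2.2.1 (by omega)
  have h3 := hm τ.2.2.2 (by omega)
  have h4 : n + 2 ≤ (n + 2) ^ E := by simpa using hm 1 (by omega)
  have h5 : 2 ^ 5 ≤ (n + 2) ^ 5 := Nat.pow_le_pow_left (by omega) 5
  have h6 : (n + 2) ^ (τ.2.1 + τ.2.2.1 + τ.2.2.2 + 6) = (n + 2) ^ 5 * (n + 2) ^ E := by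
    rw [← pow_add]
    congr 1
    omega
  rw [h6]
  have h7 : 2 ^ 5 * (n + 2) ^ E ≤ (n + 2) ^ 5 * (n + 2) ^ E := Nat.mul_le_mul_right _ h5
  refine le_trans ?_ h7
  unfold bd
  omega

/-- What the program does in the given polynomial time. -/
theorem ask_spec (τ : Code) (u v : ℝ) (x r z : List ℝ) :
    Halts (colOracle e) (askV e τ u v)
      ((x.length + 2) ^ (τ.2.1 + τ.2.2.1 + τ.2.2.2 + 6)) x r z ∧
    (acc (colOracle e) τ x → out (colOracle e) (askV e τ u v)
      ((x.length + 2) ^ (τ.2.1 + τ.2.2.1 + τ.2.2.2 + 6)) x r z = u) ∧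
    (¬ acc (colOracle e) τ x → out (colOracle e) (askV e τ u v)
      ((x.length + 2) ^ (τ.2.1 + τ.2.2.1 + τ.2.2.2 + 6)) x r z = v) := by
  obtain ⟨h1, h2, h3⟩ := ask_run e τ u v x r z
  have h4 := run_of_le _ _ _ _ (time_le τ x.length) x r z h1
  refine ⟨h1.mono (time_le τ x.length), ?_, ?_⟩
  · unfold out at h2 ⊢
    rw [h4]
    exact h2
  · unfold out at h3 ⊢
    rw [h4]
    exact h3

theorem mem_iff_acc (O : Set (List ℝ)) (Q : List Instr) (a b d : ℕ) (L : Set (List ℝ))
    (h : Protocol O Q (fun n => (n + 2) ^ a) (fun n => (n + 2) ^ b) (fun n => (n + 2) ^ d) L 1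
      (1 / 4)) (x : List ℝ) (hx0 : x ≠ []) : x ∈ L ↔ acc O (Q, a, b, d) x := by
  obtain ⟨-, h1, h2⟩ := h x hx0
  constructor
  · exact fun hx => h1 hx
  · rintro ⟨P, hP⟩
    by_contra hx
    have h3 := h2 hx P
    have h4 : (0 : ℝ) < 2 ^ ((x.length + 2) ^ b) := by positivity
    dsimp only at h3 hP
    linarith

theorem col_P (L : Set (List ℝ)) (hL : L ∈ IP (colOracle e)) : L ∈ P (colOracle e) := by
  obtain ⟨Q, a, b, d, h⟩ := hL
  refine ⟨askV e (Q, a, b, d) 1 0, a + b + d + 6, fun x hx0 => ?_⟩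
  obtain ⟨h1, h2, h3⟩ := ask_spec e (Q, a, b, d) 1 0 x [] []
  have h4 := mem_iff_acc _ Q a b d L h x hx0
  exact ⟨h1, fun hx => h2 (h4.1 hx), fun hx => h3 (fun h5 => hx (h4.2 h5))⟩

theorem col_compl (L : Set (List ℝ)) (hL : L ∈ IP (colOracle e)) : Lᶜ ∈ IP (colOracle e) := by
  obtain ⟨Q, a, b, d, h⟩ := hL
  refine ⟨askV e (Q, a, b, d) 0 1, 0, 0, a + b + d + 6, fun x hx0 => ?_⟩
  have h4 := mem_iff_acc _ Q a b d L h x hx0
  refine ⟨fun r z _ => (ask_spec e (Q, a, b, d) 0 1 x _ _).1, fun hx => ⟨fun _ => 0, ?_⟩,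
    fun hx P => ?_⟩
  · have h5 : ∀ r z, out (colOracle e) (askV e (Q, a, b, d) 0 1)
        ((x.length + 2) ^ (a + b + d + 6)) x r z = 1 := fun r z =>
      (ask_spec e (Q, a, b, d) 0 1 x r z).2.2 (fun h6 => hx (h4.2 h6))
    unfold wins
    simp only [h5, Set.ofPred_true, Set.ncard_univ]
    simp
  · have h5 : ∀ r z, out (colOracle e) (askV e (Q, a, b, d) 0 1)
        ((x.length + 2) ^ (a + b + d + 6)) x r z = 0 := fun r z =>
      (ask_spec e (Q, a, b, d) 0 1 x r z).2.1 (h4.1 (by simpa using hx))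
    unfold wins
    simp only [h5]
    simp

end Oracle

/-- There is an oracle relative to which `IP = P` over `ℝ` and `IP` is closed under complement. -/
theorem exists_collapse : ∃ O : Set (List ℝ), ∀ L ∈ IP O, L ∈ P O ∧ Lᶜ ∈ IP O := by
  obtain ⟨e⟩ := exists_code
  exact ⟨colOracle e, fun L hL => ⟨col_P e L hL, col_compl e L hL⟩⟩

end Pool.Agent.RIP
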