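import Mathlib
import Pool.Agent.RIP.Defs

/-!
# Runs of programs are piecewise continuous in parameters

`Dl S`: both `S` and its complement are countable intersections of open sets.  A function on a
space `X` is `Tame` if it is built from basic functions (symbolic configurations, resp. continuous
real functions) by finitely many case distinctions along sets in `Dl`.
-/

set_option autoImplicit false

namespace Pool.Agent.RIP

open Set

variable {X : Type} [TopologicalSpace X]

/-- Both `S` and its complement are `Gδ` sets. -/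
def Dl (S : Set X) : Prop := IsGδ S ∧ IsGδ Sᶜ

theorem Dl.compl {S : Set X} (h : Dl S) : Dl Sᶜ := ⟨h.2, by rw [compl_compl]; exact h.1⟩

theorem Dl.inter {S T : Set X} (h : Dl S) (h' : Dl T) : Dl (S ∩ T) :=
  ⟨h.1.inter h'.1, by rw [compl_inter]; exact h.2.union h'.2⟩

theorem Dl.union {S T : Set X} (h : Dl S) (h' : Dl T) : Dl (S ∪ T) :=
  ⟨h.1.union h'.1, by rw [compl_union]; exact h.2.inter h'.2⟩

theorem Dl.univ : Dl (Set.univ : Set X) := ⟨IsGδ.univ, by rw [compl_univ]; exact IsGδ.empty⟩

theorem Dl.empty : Dl (∅ : Set X) := ⟨IsGδ.empty, by rw [compl_empty]; exact IsGδ.univ⟩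

theorem Dl.preimage {Y : Type} [TopologicalSpace Y] {f : X → Y} (hf : Continuous f) {S : Set Y}
    (h : Dl S) : Dl (f ⁻¹' S) :=
  ⟨h.1.preimage hf, by rw [← preimage_compl]; exact h.2.preimage hf⟩

theorem Dl.const (p : Prop) : Dl {_ω : X | p} := by
  by_cases h : p
  · simpa [h] using (Dl.univ (X := X))
  · simpa [h] using (Dl.empty (X := X))

theorem Dl.biInter {ι : Type} (s : Finset ι) (S : ι → Set X) (h : ∀ i ∈ s, Dl (S i)) :
    Dl {ω | ∀ i ∈ s, ω ∈ S i} := by
  classical
  induction s using Finset.induction_on with
  | empty => simpa using (Dl.univ (X := X))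
  | insert a s ha ih =>
    have h1 := (h a (Finset.mem_insert_self a s)).inter
      (ih (fun i hi => h i (Finset.mem_insert_of_mem hi)))
    have h2 : {ω | ∀ i ∈ insert a s, ω ∈ S i} = S a ∩ {ω | ∀ i ∈ s, ω ∈ S i} := by
      ext ω
      simp
    rw [h2]
    exact h1

theorem Dl.all {ι : Type} [Finite ι] (S : ι → Set X) (h : ∀ i, Dl (S i)) :
    Dl {ω | ∀ i, ω ∈ S i} := by
  classical
  have := Fintype.ofFinite ι
  have h1 := Dl.biInter Finset.univ S (fun i _ => h i)
  simpa using h1

theorem Dl.imp {p q : X → Prop} (h : Dl {ω | p ω}) (h' : Dl {ω | q ω}) :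
    Dl {ω | p ω → q ω} := by
  have h1 := h.compl.union h'
  have h2 : {ω | p ω → q ω} = {ω | p ω}ᶜ ∪ {ω | q ω} := by
    ext ω
    simp only [mem_setOf_eq, mem_union, mem_compl_iff]
    tauto
  rw [h2]
  exact h1

/-- Functions built from the basic functions `fun ω => E ω σ` by finitely many case distinctions
along sets in `Dl`. -/
inductive Tame {β γ : Type} (E : X → γ → β) : (X → β) → Prop
  | base (σ : γ) : Tame E (fun ω => E ω σ)
  | split (S : Set X) (hS : Dl S) (F G : X → β) (hF : Tame E F) (hG : Tame E G)
      (H : X → β) (h1 : ∀ ω ∈ S, H ω = F ω) (h2 : ∀ ω ∉ S, H ω = G ω) : Tame E H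

/-- Composition of a tame function with a function which turns basic functions into tame ones. -/
theorem Tame.comp {β γ β' γ' : Type} {E : X → γ → β} {E' : X → γ' → β'} (φ : X → β → β')
    (hφ : ∀ σ : γ, Tame E' (fun ω => φ ω (E ω σ))) {F : X → β} (hF : Tame E F) :
    Tame E' (fun ω => φ ω (F ω)) := by
  induction hF with
  | base σ => exact hφ σ
  | split S hS F G _ _ H h1 h2 ihF ihG =>
    exact Tame.split S hS _ _ ihF ihG _ (fun ω hω => by simp only [h1 ω hω])
      (fun ω hω => by simp only [h2 ω hω])

/-- Evaluation of continuous real functions. -/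
def evR (ω : X) (g : C(X, ℝ)) : ℝ := g ω

/-- Evaluation of a configuration whose stacks hold continuous functions. -/
def evC (ω : X) (σ : Cfg C(X, ℝ)) : Cfg ℝ := ⟨σ.pc, fun s => (σ.st s).map (fun g => g ω)⟩

theorem evC_update (ω : X) (pc : ℕ) (st : ℕ → List C(X, ℝ)) (s : ℕ) (l : List C(X, ℝ)) :
    evC ω ⟨pc, Function.update st s l⟩ =
      ⟨pc, Function.update (evC ω ⟨pc, st⟩).st s (l.map (fun g => g ω))⟩ := by
  unfold evC
  congr 1
  funext u
  by_cases h : u = s
  · subst h; simp
  · simp [h]

theorem map_bin (ω : X) (f : C(X, ℝ) → C(X, ℝ) → C(X, ℝ)) (f' : ℝ → ℝ → ℝ)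
    (h : ∀ a b, f a b ω = f' (a ω) (b ω)) (l : List C(X, ℝ)) :
    bin f' (l.map (fun g => g ω)) = (bin f l).map (fun g => g ω) := by
  match l with
  | [] => rfl
  | [a] => rfl
  | a :: b :: l => simp [bin, h]

/-- Subsets of `ℝ^n` given by the words of length `n` in `O`. -/
def slice (O : Set (List ℝ)) (n : ℕ) : Set (Fin n → ℝ) := {v | List.ofFn v ∈ O}

section

variable [TopologicalSpace.MetrizableSpace X]

theorem Dl.of_isClosed {S : Set X} (h : IsClosed S) : Dl S := by
  letI := TopologicalSpace.metrizableSpaceMetric X
  exact ⟨h.isGδ, h.isOpen_compl.isGδ⟩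

theorem Dl.nonneg (g : C(X, ℝ)) : Dl {ω | 0 ≤ g ω} :=
  Dl.of_isClosed (isClosed_le continuous_const g.continuous)

/-- One step of a program turns basic configurations into tame ones. -/
theorem tame_step (O : Set (List ℝ)) (hO : ∀ n, Dl (slice O n)) (Q : List Instr)
    (σ : Cfg C(X, ℝ)) : Tame evC (fun ω => step O Q (evC ω σ)) := by
  classical
  rcases hq : Q[σ.pc]? with _ | q
  · have h1 : (fun ω => step O Q (evC ω σ)) = fun ω => evC ω σ := by
      funext ω
      unfold step
      rw [show (evC ω σ).pc = σ.pc from rfl, hq]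
    rw [h1]
    exact Tame.base σ
  · cases q with
    | push s a =>
      have h1 : (fun ω => step O Q (evC ω σ)) = fun ω => evC ω
          ⟨σ.pc + 1, Function.update σ.st s (ContinuousMap.const X a :: σ.st s)⟩ := by
        funext ω
        rw [evC_update]
        unfold step
        rw [show (evC ω σ).pc = σ.pc from rfl, hq]
        rfl
      rw [h1]
      exact Tame.base _
    | pop s =>
      have h1 : (fun ω => step O Q (evC ω σ)) = fun ω => evC ω
          ⟨σ.pc + 1, Function.update σ.st s (σ.st s).tail⟩ := by
        funext ω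
        rw [evC_update]
        unfold step
        rw [show (evC ω σ).pc = σ.pc from rfl, hq]
        simp [evC]
      rw [h1]
      exact Tame.base _
    | copy s u =>
      have h1 : (fun ω => step O Q (evC ω σ)) = fun ω => evC ω
          ⟨σ.pc + 1, Function.update σ.st u ((σ.st s).take 1 ++ σ.st u)⟩ := by
        funext ω
        rw [evC_update]
        unfold step
        rw [show (evC ω σ).pc = σ.pc from rfl, hq]
        simp [evC]
      rw [h1]
      exact Tame.base _
    | add s =>
      have h1 : (fun ω => step O Q (evC ω σ)) = fun ω => evC ω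
          ⟨σ.pc + 1, Function.update σ.st s (bin (fun a b => a + b) (σ.st s))⟩ := by
        funext ω
        rw [evC_update]
        unfold step
        rw [show (evC ω σ).pc = σ.pc from rfl, hq]
        simp only [evC]
        rw [map_bin ω (fun a b => a + b) (fun a b => a + b) (fun a b => rfl)]
      rw [h1]
      exact Tame.base _
    | sub s =>
      have h1 : (fun ω => step O Q (evC ω σ)) = fun ω => evC ω
          ⟨σ.pc + 1, Function.update σ.st s (bin (fun a b => a - b) (σ.st s))⟩ := by
        funext ω
        rw [evC_update]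
        unfold step
        rw [show (evC ω σ).pc = σ.pc from rfl, hq]
        simp only [evC]
        rw [map_bin ω (fun a b => a - b) (fun a b => a - b) (fun a b => rfl)]
      rw [h1]
      exact Tame.base _
    | mul s =>
      have h1 : (fun ω => step O Q (evC ω σ)) = fun ω => evC ω
          ⟨σ.pc + 1, Function.update σ.st s (bin (fun a b => a * b) (σ.st s))⟩ := by
        funext ω
        rw [evC_update]
        unfold step
        rw [show (evC ω σ).pc = σ.pc from rfl, hq]
        simp only [evC]
        rw [map_bin ω (fun a b => a * b) (fun a b => a * b) (fun a b => rfl)]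
      rw [h1]
      exact Tame.base _
    | branch s i j k =>
      rcases hs : σ.st s with _ | ⟨g, l⟩
      · have h1 : (fun ω => step O Q (evC ω σ)) = fun ω => evC ω ⟨i, σ.st⟩ := by
          funext ω
          unfold step
          rw [show (evC ω σ).pc = σ.pc from rfl, hq]
          simp [evC, hs]
        rw [h1]
        exact Tame.base _
      · refine Tame.split {ω | 0 ≤ g ω} (Dl.nonneg g) _ _ (Tame.base ⟨j, σ.st⟩)
          (Tame.base ⟨k, σ.st⟩) _ ?_ ?_
        · intro ω hω
          have hω' : 0 ≤ g ω := hω
          unfold step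
          rw [show (evC ω σ).pc = σ.pc from rfl, hq]
          simp [evC, hs, hω']
        · intro ω hω
          have hω' : ¬ 0 ≤ g ω := hω
          unfold step
          rw [show (evC ω σ).pc = σ.pc from rfl, hq]
          simp only [evC, hs, List.map_cons, if_neg hω']
    | ask s i j =>
      have hc : Continuous (fun ω : X => fun n : Fin (σ.st s).length => (σ.st s)[n] ω) :=
        continuous_pi (fun n => (σ.st s)[n].continuous)
      have hD := (hO (σ.st s).length).preimage hc
      have hof : ∀ ω : X, List.ofFn (fun n : Fin (σ.st s).length => (σ.st s)[n] ω) =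
          (evC ω σ).st s := by
        intro ω
        simp only [evC]
        apply List.ext_getElem
        · simp
        · intro n h1 h2
          simp
      refine Tame.split _ hD _ _ (Tame.base ⟨i, σ.st⟩) (Tame.base ⟨j, σ.st⟩) _ ?_ ?_
      · intro ω hω
        have hω' : (evC ω σ).st s ∈ O := by
          rw [← hof ω]; exact hω
        unfold step
        rw [show (evC ω σ).pc = σ.pc from rfl, hq]
        simp only [if_pos hω']
        rfl
      · intro ω hω
        have hω' : (evC ω σ).st s ∉ O := by
          rw [← hof ω]; exact hω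
        unfold step
        rw [show (evC ω σ).pc = σ.pc from rfl, hq]
        simp only [if_neg hω']
        rfl

theorem evC_init (ω : X) (x r z : List C(X, ℝ)) :
    evC ω (init x r z) = init (x.map (fun g => g ω)) (r.map (fun g => g ω))
      (z.map (fun g => g ω)) := by
  unfold evC init
  congr 1
  funext s
  by_cases h0 : s = 0
  · simp [h0]
  · by_cases h1 : s = 1
    · simp [h1]
    · by_cases h2 : s = 2
      · simp [h2]
      · simp [h0, h1, h2]

/-- The configuration after `t` steps is a tame function of the parameters. -/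
theorem tame_run (O : Set (List ℝ)) (hO : ∀ n, Dl (slice O n)) (Q : List Instr) (t : ℕ)
    (x r z : List C(X, ℝ)) : Tame evC (fun ω => run O Q t (x.map (fun g => g ω))
      (r.map (fun g => g ω)) (z.map (fun g => g ω))) := by
  induction t with
  | zero =>
    have h1 : (fun ω => run O Q 0 (x.map (fun g => g ω))
        (r.map (fun g => g ω)) (z.map (fun g => g ω))) = fun ω => evC ω (init x r z) := by
      funext ω
      rw [evC_init]
      rfl
    rw [h1]
    exact Tame.base _
  | succ t ih =>
    have h1 : (fun ω => run O Q (t + 1) (x.map (fun g => g ω))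
        (r.map (fun g => g ω)) (z.map (fun g => g ω))) = fun ω => step O Q (run O Q t
        (x.map (fun g => g ω)) (r.map (fun g => g ω)) (z.map (fun g => g ω))) := by
      funext ω
      unfold run
      rw [Function.iterate_succ_apply']
    rw [h1]
    exact Tame.comp (fun _ c => step O Q c) (tame_step O hO Q) ih

/-- The output after `t` steps is a tame function of the parameters. -/
theorem tame_out (O : Set (List ℝ)) (hO : ∀ n, Dl (slice O n)) (Q : List Instr) (t : ℕ)
    (x r z : List C(X, ℝ)) : Tame evR (fun ω => out O Q t (x.map (fun g => g ω))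
      (r.map (fun g => g ω)) (z.map (fun g => g ω))) := by
  refine Tame.comp (fun _ c => (c.st 3).headD 0) ?_ (tame_run O hO Q t x r z)
  intro σ
  have h1 : (fun ω => ((evC ω σ).st 3).headD 0) = fun ω => evR ω ((σ.st 3).headD 0) := by
    funext ω
    simp only [evC, evR]
    rcases σ.st 3 with _ | ⟨g, l⟩
    · rfl
    · rfl
  rw [h1]
  exact Tame.base _

theorem Tame.eq_const {f : X → ℝ} (hf : Tame evR f) (a : ℝ) : Dl {ω | f ω = a} := by
  induction hf with
  | base g => exact Dl.of_isClosed (isClosed_eq g.continuous continuous_const)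
  | split S hS F G _ _ H h1 h2 ihF ihG =>
    have h3 : {ω | H ω = a} = (S ∩ {ω | F ω = a}) ∪ (Sᶜ ∩ {ω | G ω = a}) := by
      ext ω
      by_cases hω : ω ∈ S
      · simp [hω, h1 ω hω]
      · simp [hω, h2 ω hω]
    rw [h3]
    exact (hS.inter ihF).union (hS.compl.inter ihG)

theorem Tame.sub {f f' : X → ℝ} (hf : Tame evR f) (hf' : Tame evR f') :
    Tame evR (fun ω => f ω - f' ω) := by
  refine Tame.comp (fun ω a => a - f' ω) ?_ hf
  intro g
  refine Tame.comp (fun ω a => evR ω g - a) ?_ hf'
  intro g'
  exact Tame.base (E := evR) (g - g')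

theorem Tame.eq {f f' : X → ℝ} (hf : Tame evR f) (hf' : Tame evR f') :
    Dl {ω | f ω = f' ω} := by
  have h1 := (hf.sub hf').eq_const 0
  simpa [sub_eq_zero] using h1

end

end Pool.Agent.RIP
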