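import Mathlib
import Pool.Agent.RIP.Tame

/-!
# Projections

Projections of `Fσ` sets along a finite-dimensional space are `Fσ`; the irrational numbers are not
an `Fσ` set.
-/

set_option autoImplicit false

namespace Pool.Agent.RIP

open Set

/-- The complement of a `Gδ` set is a countable union of closed sets. -/
theorem exists_iUnion_closed {X : Type} [TopologicalSpace X] {S : Set X} (h : IsGδ Sᶜ) :
    ∃ C : ℕ → Set X, (∀ n, IsClosed (C n)) ∧ S = ⋃ n, C n := by
  rw [isGδ_iff_eq_iInter_nat] at h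
  obtain ⟨U, hU, hS⟩ := h
  refine ⟨fun n => (U n)ᶜ, fun n => (hU n).isClosed_compl, ?_⟩
  rw [← compl_compl S, hS, compl_iInter]

/-- The projection of an `Fσ` set along a `σ`-compact space is an `Fσ` set. -/
theorem isGδ_compl_proj {X Y : Type} [TopologicalSpace X] [TopologicalSpace Y]
    [SigmaCompactSpace Y] {S : Set (X × Y)} (h : IsGδ Sᶜ) :
    IsGδ {x : X | ∃ y : Y, (x, y) ∈ S}ᶜ := by
  obtain ⟨C, hC, hS⟩ := exists_iUnion_closed h
  have h1 : {x : X | ∃ y : Y, (x, y) ∈ S}ᶜ =
      ⋂ p : ℕ × ℕ, (Prod.fst '' (C p.1 ∩ (univ ×ˢ compactCovering Y p.2)))ᶜ := by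
    rw [← compl_iUnion]
    congr 1
    ext x
    simp only [mem_setOf_eq, mem_iUnion, mem_image, mem_inter_iff, mem_prod, mem_univ, true_and,
      Prod.exists, exists_and_right, exists_eq_right]
    constructor
    · rintro ⟨y, hy⟩
      rw [hS, mem_iUnion] at hy
      obtain ⟨n, hn⟩ := hy
      obtain ⟨m, hm⟩ : ∃ m, y ∈ compactCovering Y m := by
        have := mem_univ y
        rw [← iUnion_compactCovering, mem_iUnion] at this
        exact this
      exact ⟨n, m, y, hn, hm⟩
    · rintro ⟨n, m, y, hn, _⟩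
      exact ⟨y, by rw [hS, mem_iUnion]; exact ⟨n, hn⟩⟩
  rw [h1]
  refine IsGδ.iInter (fun p => ?_)
  apply IsOpen.isGδ
  rw [isOpen_compl_iff]
  have hK : IsCompact (compactCovering Y p.2) := isCompact_compactCovering Y p.2
  have := isCompact_iff_compactSpace.1 hK
  -- the projection of a closed subset of `X × K`
  have h2 : Prod.fst '' (C p.1 ∩ (univ ×ˢ compactCovering Y p.2)) =
      Prod.fst '' ((fun q : X × compactCovering Y p.2 => (q.1, (q.2 : Y))) ⁻¹' (C p.1)) := by
    ext x
    constructor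
    · rintro ⟨⟨a, b⟩, ⟨h3, -, h4⟩, rfl⟩
      exact ⟨(a, ⟨b, h4⟩), h3, rfl⟩
    · rintro ⟨⟨a, b⟩, h3, rfl⟩
      exact ⟨(a, b.1), ⟨h3, trivial, b.2⟩, rfl⟩
  rw [h2]
  apply isClosedMap_fst_of_compactSpace
  exact (hC p.1).preimage (by fun_prop)

/-- The set of irrational numbers is not an `Fσ` set. -/
theorem not_isGδ_rat : ¬ IsGδ {y : ℝ | Irrational y}ᶜ := by
  intro h
  have h1 : Dense {y : ℝ | Irrational y}ᶜ := by
    have h2 : {y : ℝ | Irrational y}ᶜ = Set.range ((↑) : ℚ → ℝ) := by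
      ext y
      simp [Irrational]
    rw [h2]
    exact Rat.denseRange_cast
  have h3 := Dense.inter_of_Gδ h IsGδ.setOfPred_irrational h1 dense_irrational
  rw [compl_inter_self] at h3
  exact Set.not_nonempty_empty h3.nonempty

end Pool.Agent.RIP
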