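import Mathlib
import Pool.Agent.RIP.Proj

/-!
# Languages with real interactive protocols relative to a `Δ⁰₂` oracle are `Fσ`
-/

set_option autoImplicit false

namespace Pool.Agent.RIP

open Set

/-- The first `i` replies, the last one first. -/
def zl (z : ℕ → ℝ) : ℕ → List ℝ
  | 0 => []
  | i + 1 => z i :: zl z i

/-- The messages of the verifier in the first `i` rounds when the replies are `z`. -/
noncomputable def wl (O : Set (List ℝ)) (Q : List Instr) (t : ℕ) (x r : List ℝ) (z : ℕ → ℝ) :
    ℕ → List ℝ
  | 0 => []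
  | i + 1 => out O Q t x r (zl z i) :: wl O Q t x r z i

theorem wl_length (O : Set (List ℝ)) (Q : List Instr) (t : ℕ) (x r : List ℝ) (z : ℕ → ℝ)
    (i : ℕ) : (wl O Q t x r z i).length = i := by
  induction i with
  | zero => rfl
  | succ i ih => simp [wl, ih]

theorem talk_eq (O : Set (List ℝ)) (Q : List Instr) (t : ℕ) (x r : List ℝ) (z : ℕ → ℝ)
    (P : List ℝ → ℝ) (m : ℕ) (h : ∀ i < m, z i = P (wl O Q t x r z (i + 1))) :
    ∀ i ≤ m, talk O Q t x r P i = (wl O Q t x r z i, zl z i) := by
  intro i
  induction i with
  | zero => intro _; rfl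
  | succ i ih =>
    intro hi
    have h1 := ih (by omega)
    simp only [talk, h1, wl, zl]
    rw [h i (by omega)]
    rfl

/-- Extension of finitely many replies by `0`. -/
def ext {m : ℕ} (z : Fin m → ℝ) : ℕ → ℝ := fun i => if h : i < m then z ⟨i, h⟩ else 0

theorem exists_prover_iff (O : Set (List ℝ)) (Q : List Instr) (t m k : ℕ) (x : List ℝ)
    (A : Finset (Fin k → Bool)) :
    (∃ P : List ℝ → ℝ, ∀ r ∈ A, out O Q t x (coins r) (talk O Q t x (coins r) P m).2 = 1) ↔
    ∃ z : (Fin k → Bool) → Fin m → ℝ,
      (∀ (r r' : Fin k → Bool) (i : Fin m),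
        wl O Q t x (coins r) (ext (z r)) (i + 1) = wl O Q t x (coins r') (ext (z r')) (i + 1) →
        z r i = z r' i) ∧
      ∀ r ∈ A, out O Q t x (coins r) (zl (ext (z r)) m) = 1 := by
  classical
  constructor
  · rintro ⟨P, hP⟩
    -- the replies of `P`
    let Z : (Fin k → Bool) → ℕ → ℝ := fun r i => P (talk O Q t x (coins r) P (i + 1)).1
    have h1 : ∀ r i, talk O Q t x (coins r) P i = (wl O Q t x (coins r) (Z r) i, zl (Z r) i) := by
      intro r i
      induction i with
      | zero => rfl
      | succ i ih =>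
        have h2 : Z r i = P (out O Q t x (coins r) (zl (Z r) i) ::
            wl O Q t x (coins r) (Z r) i) := by
          show P (talk O Q t x (coins r) P (i + 1)).1 = _
          simp only [talk, ih]
        simp only [talk, ih, wl, zl]
        rw [← h2]
    have h3 : ∀ r i, i ≤ m → zl (ext (fun j : Fin m => Z r j)) i = zl (Z r) i := by
      intro r i
      induction i with
      | zero => intro _; rfl
      | succ i ih =>
        intro hi
        simp only [zl]
        rw [ih (by omega)]
        simp [ext, show i < m by omega]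
    have h4 : ∀ r i, i ≤ m → wl O Q t x (coins r) (ext (fun j : Fin m => Z r j)) i =
        wl O Q t x (coins r) (Z r) i := by
      intro r i
      induction i with
      | zero => intro _; rfl
      | succ i ih =>
        intro hi
        simp only [wl]
        rw [ih (by omega), h3 r i (by omega)]
    refine ⟨fun r j => Z r j, ?_, ?_⟩
    · intro r r' i h
      rw [h4 r (i + 1) (by omega), h4 r' (i + 1) (by omega)] at h
      show Z r i = Z r' i
      have h5 : ∀ r, Z r i = P (wl O Q t x (coins r) (Z r) (i + 1)) := by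
        intro r
        show P (talk O Q t x (coins r) P (i + 1)).1 = _
        rw [h1]
      rw [h5, h5, h]
    · intro r hr
      rw [h3 r m le_rfl]
      have := hP r hr
      rw [h1] at this
      exact this
  · rintro ⟨z, hz, hA⟩
    let P : List ℝ → ℝ := fun l =>
      if h : ∃ (r : Fin k → Bool) (i : Fin m), l = wl O Q t x (coins r) (ext (z r)) (i + 1) then
        z h.choose h.choose_spec.choose else 0
    have hP : ∀ (r : Fin k → Bool) (i : Fin m),
        P (wl O Q t x (coins r) (ext (z r)) (i + 1)) = z r i := by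
      intro r i
      have h : ∃ (r' : Fin k → Bool) (i' : Fin m),
          wl O Q t x (coins r) (ext (z r)) (i + 1) =
            wl O Q t x (coins r') (ext (z r')) (i' + 1) := ⟨r, i, rfl⟩
      have h0 : P (wl O Q t x (coins r) (ext (z r)) (i + 1)) =
          z h.choose h.choose_spec.choose := dif_pos h
      rw [h0]
      have h1 := h.choose_spec.choose_spec
      have h2 : i = h.choose_spec.choose := by
        have := congrArg List.length h1
        rw [wl_length, wl_length] at this
        exact Fin.ext (by omega)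
      rw [← h2] at h1 ⊢
      exact (hz _ _ _ h1).symm
    refine ⟨P, fun r hr => ?_⟩
    rw [talk_eq O Q t x (coins r) (ext (z r)) P m ?_ m le_rfl]
    · exact hA r hr
    · intro i hi
      rw [hP r ⟨i, hi⟩]
      simp [ext, hi]

section

variable (n m k : ℕ)

/-- The parameters: an input of length `n` and all replies of a prover. -/
abbrev Par : Type := (Fin n → ℝ) × ((Fin k → Bool) → Fin m → ℝ)

/-- The input as a list of continuous functions. -/
def xC : List C(Par n m k, ℝ) := List.ofFn (fun j => ⟨fun ω => ω.1 j, by fun_prop⟩)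

theorem xC_map (ω : Par n m k) : (xC n m k).map (fun g => g ω) = List.ofFn ω.1 := by
  simp only [xC, List.map_ofFn]
  rfl

/-- The random string as a list of continuous functions. -/
def rC (r : Fin k → Bool) : List C(Par n m k, ℝ) :=
  (coins r).map (fun a => ContinuousMap.const _ a)

theorem rC_map (r : Fin k → Bool) (ω : Par n m k) :
    (rC n m k r).map (fun g => g ω) = coins r := by
  simp [rC, Function.comp_def]

/-- A reply as a continuous function. -/
noncomputable def zc (r : Fin k → Bool) (i : ℕ) : C(Par n m k, ℝ) :=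
  ⟨fun ω => ext (ω.2 r) i, by
    by_cases h : i < m
    · simp only [ext, h, dite_true]
      fun_prop
    · simp only [ext, h, dite_false]
      fun_prop⟩

/-- The replies as a list of continuous functions. -/
noncomputable def zC (r : Fin k → Bool) : ℕ → List C(Par n m k, ℝ)
  | 0 => []
  | i + 1 => zc n m k r i :: zC r i

theorem zC_map (r : Fin k → Bool) (i : ℕ) (ω : Par n m k) :
    (zC n m k r i).map (fun g => g ω) = zl (ext (ω.2 r)) i := by
  induction i with
  | zero => rfl
  | succ i ih =>
    simp only [zC, List.map_cons, zl, ih]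
    rfl

variable (O : Set (List ℝ)) (hO : ∀ n, Dl (slice O n)) (Q : List Instr) (t : ℕ)

include hO in
theorem tame_msg (r : Fin k → Bool) (i : ℕ) : Tame evR (fun ω : Par n m k =>
    out O Q t (List.ofFn ω.1) (coins r) (zl (ext (ω.2 r)) i)) := by
  have h := tame_out O hO Q t (xC n m k) (rC n m k r) (zC n m k r i)
  simpa only [xC_map, rC_map, zC_map] using h

include hO in
theorem dl_wl (r r' : Fin k → Bool) (i : ℕ) : Dl {ω : Par n m k |
    wl O Q t (List.ofFn ω.1) (coins r) (ext (ω.2 r)) i =
      wl O Q t (List.ofFn ω.1) (coins r') (ext (ω.2 r')) i} := by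
  induction i with
  | zero => simpa [wl] using (Dl.univ (X := Par n m k))
  | succ i ih =>
    have h := ((tame_msg n m k O hO Q t r i).eq (tame_msg n m k O hO Q t r' i)).inter ih
    have h1 : {ω : Par n m k | wl O Q t (List.ofFn ω.1) (coins r) (ext (ω.2 r)) (i + 1) =
        wl O Q t (List.ofFn ω.1) (coins r') (ext (ω.2 r')) (i + 1)} =
        {ω : Par n m k | out O Q t (List.ofFn ω.1) (coins r) (zl (ext (ω.2 r)) i) =
          out O Q t (List.ofFn ω.1) (coins r') (zl (ext (ω.2 r')) i)} ∩
        {ω : Par n m k | wl O Q t (List.ofFn ω.1) (coins r) (ext (ω.2 r)) i =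
          wl O Q t (List.ofFn ω.1) (coins r') (ext (ω.2 r')) i} := by
      ext ω
      simp [wl]
    rw [h1]
    exact h

include hO in
/-- For a `Δ⁰₂` oracle the inputs of a given length for which some prover convinces the verifier
for all random strings in `A` form an `Fσ` set. -/
theorem fsigma_finset (A : Finset (Fin k → Bool)) : IsGδ {x : Fin n → ℝ | ∃ P : List ℝ → ℝ,
    ∀ r ∈ A, out O Q t (List.ofFn x) (coins r) (talk O Q t (List.ofFn x) (coins r) P m).2 = 1}ᶜ := by
  simp only [exists_prover_iff]
  have h1 : Dl {ω : Par n m k | (∀ (r r' : Fin k → Bool) (i : Fin m),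
        wl O Q t (List.ofFn ω.1) (coins r) (ext (ω.2 r)) (i + 1) =
          wl O Q t (List.ofFn ω.1) (coins r') (ext (ω.2 r')) (i + 1) →
        ω.2 r i = ω.2 r' i)} :=
    Dl.all _ (fun r => Dl.all _ (fun r' => Dl.all _ (fun i =>
      Dl.imp (dl_wl n m k O hO Q t r r' (i + 1))
        (Dl.of_isClosed (isClosed_eq (by fun_prop) (by fun_prop))))))
  have h2 : Dl {ω : Par n m k | ∀ r ∈ A,
      out O Q t (List.ofFn ω.1) (coins r) (zl (ext (ω.2 r)) m) = 1} :=
    Dl.biInter A _ (fun r _ => (tame_msg n m k O hO Q t r m).eq_const 1)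
  exact isGδ_compl_proj (h1.inter h2).2

include hO in
/-- For a `Δ⁰₂` oracle the inputs of length `n` for which some prover convinces the verifier with
probability at least `c` form an `Fσ` set. -/
theorem fsigma_wins (c : ℝ) : IsGδ {x : Fin n → ℝ | ∃ P : List ℝ → ℝ,
    c * 2 ^ k ≤ (wins O Q t m k (List.ofFn x) P : ℝ)}ᶜ := by
  classical
  have h1 : {x : Fin n → ℝ | ∃ P : List ℝ → ℝ,
      c * 2 ^ k ≤ (wins O Q t m k (List.ofFn x) P : ℝ)}ᶜ =
      ⋂ A : {A : Finset (Fin k → Bool) // c * 2 ^ k ≤ (A.card : ℝ)},
      {x : Fin n → ℝ | ∃ P : List ℝ → ℝ, ∀ r ∈ A.1, out O Q t (List.ofFn x) (coins r)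
        (talk O Q t (List.ofFn x) (coins r) P m).2 = 1}ᶜ := by
    rw [← compl_iUnion]
    congr 1
    ext x
    simp only [mem_iUnion, Subtype.exists]
    constructor
    · rintro ⟨P, hP⟩
      refine ⟨Finset.univ.filter (fun r => out O Q t (List.ofFn x) (coins r)
        (talk O Q t (List.ofFn x) (coins r) P m).2 = 1), ?_, P, fun r hr => ?_⟩
      · refine hP.trans (le_of_eq ?_)
        congr 1
        unfold wins
        rw [← Set.ncard_coe_finset]
        congr 1
        ext r
        simp
      · exact (Finset.mem_filter.1 hr).2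
    · rintro ⟨A, hA, P, hP⟩
      refine ⟨P, hA.trans ?_⟩
      have h2 : A.card ≤ wins O Q t m k (List.ofFn x) P := by
        unfold wins
        rw [← Set.ncard_coe_finset]
        exact Set.ncard_le_ncard (fun r hr => hP r (Finset.mem_coe.1 hr)) (Set.toFinite _)
      exact_mod_cast h2
  rw [h1]
  exact IsGδ.iInter (fun A => fsigma_finset n m k O hO Q t A.1)

end

end Pool.Agent.RIP
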