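import Mathlib
import Pool.Agent.RIP.Main
import Pool.Agent.RIP.IntV

/-!
# Real interactive proofs with the oracle `ℤ` are not closed under complement
-/

set_option autoImplicit false

namespace Pool.Agent.RIP

open Set

theorem int_slices (n : ℕ) : Dl (slice intOracle n) := by
  by_cases hn : n = 1
  · subst hn
    have h1 : slice intOracle 1 = (fun v : Fin 1 → ℝ => v 0) ⁻¹' (Set.range ((↑) : ℤ → ℝ)) := by
      ext v
      simp only [slice, intOracle, Set.mem_ofPred_eq, mem_preimage, mem_range]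
      constructor
      · rintro ⟨k, hk⟩
        refine ⟨k, ?_⟩
        simpa using hk.symm
      · rintro ⟨k, hk⟩
        exact ⟨k, by simp [hk]⟩
    rw [h1]
    exact Dl.of_isClosed (Int.isClosedEmbedding_coe_real.isClosed_range.preimage (by fun_prop))
  · have h1 : slice intOracle n = ∅ := by
      ext v
      simp only [slice, intOracle, Set.mem_ofPred_eq, mem_empty_iff_false, iff_false]
      rintro ⟨k, hk⟩
      apply hn
      have := congrArg List.length hk
      simpa using this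
    rw [h1]
    exact Dl.empty

theorem nil_not_mem : ([] : List ℝ) ∉ intOracle := by
  rintro ⟨k, hk⟩
  simp at hk

theorem mem_int (a : ℝ) : [a] ∈ intOracle ↔ ∃ k : ℤ, a = k := by
  simp [intOracle]

/-- What the verifier accepts, if it has enough time. -/
theorem ratV_out (t : ℕ) (ht : 13 ≤ t) (x r z : List ℝ) :
    Halts intOracle ratV t x r z ∧
    (out intOracle ratV t x r z = 1 ↔ ∃ y q zs, x = [y] ∧ z = q :: zs ∧ 1 ≤ q ∧
      [q] ∈ intOracle ∧ [y * q] ∈ intOracle) := by
  obtain ⟨h1, h2⟩ := ratV_run intOracle nil_not_mem x r z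
  refine ⟨h1.mono ht, ?_⟩
  rw [← h2]
  unfold out
  rw [run_of_le intOracle ratV 13 t ht x r z h1]

theorem four_pow (n : ℕ) : 13 ≤ (n + 2) ^ 4 := by
  have : 2 ^ 4 ≤ (n + 2) ^ 4 := Nat.pow_le_pow_left (by omega) 4
  omega

theorem ratV_complete (t : ℕ) (ht : 13 ≤ t) (q : ℚ) (r : List ℝ) (w : List ℝ) :
    out intOracle ratV t [(q : ℝ)] r ((q.den : ℝ) :: w) = 1 := by
  rw [(ratV_out t ht _ _ _).2]
  refine ⟨q, q.den, w, rfl, rfl, by exact_mod_cast q.pos, ?_, ?_⟩
  · rw [mem_int]
    exact ⟨q.den, by simp⟩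
  · rw [mem_int]
    refine ⟨q.num, ?_⟩
    have := q.mul_den_eq_num
    exact_mod_cast this

theorem ratV_sound (t : ℕ) (ht : 13 ≤ t) (x r z : List ℝ) (h : out intOracle ratV t x r z = 1) :
    x ∈ ratWords := by
  rw [(ratV_out t ht _ _ _).2] at h
  obtain ⟨y, q, zs, rfl, -, h1, h2, h3⟩ := h
  rw [mem_int] at h2 h3
  obtain ⟨a, ha⟩ := h2
  obtain ⟨b, hb⟩ := h3
  refine ⟨(b : ℚ) / (a : ℚ), ?_⟩
  have hq : (a : ℝ) ≠ 0 := by rw [← ha]; linarith
  have hy : y = (b : ℝ) / (a : ℝ) := by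
    rw [eq_div_iff hq, ← ha, hb]
  rw [hy]
  simp

theorem ratWords_NP : ratWords ∈ NP intOracle := by
  refine ⟨ratV, 0, 4, fun x _ => ⟨fun z _ => (ratV_out _ (four_pow _) _ _ _).1, ?_⟩⟩
  constructor
  · rintro ⟨q, rfl⟩
    exact ⟨[(q.den : ℝ)], rfl, ratV_complete _ (four_pow _) q [] []⟩
  · rintro ⟨z, -, hz⟩
    exact ratV_sound _ (four_pow _) _ _ _ hz

theorem ratWords_IP : ratWords ∈ IP intOracle := by
  refine ⟨ratV, 0, 0, 4, fun x _ => ⟨fun r z _ => (ratV_out _ (four_pow _) _ _ _).1, ?_, ?_⟩⟩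
  · rintro ⟨q, rfl⟩
    refine ⟨fun _ => (q.den : ℝ), ?_⟩
    have h1 : wins intOracle ratV (([(q : ℝ)].length + 2) ^ 4) (([(q : ℝ)].length + 2) ^ 0)
        (([(q : ℝ)].length + 2) ^ 0) [(q : ℝ)] (fun _ => (q.den : ℝ)) = 2 := by
      unfold wins
      have h2 : {r : Fin (([(q : ℝ)].length + 2) ^ 0) → Bool | out intOracle ratV
          (([(q : ℝ)].length + 2) ^ 4) [(q : ℝ)] (coins r) (talk intOracle ratV
          (([(q : ℝ)].length + 2) ^ 4) [(q : ℝ)] (coins r) (fun _ => (q.den : ℝ))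
          (([(q : ℝ)].length + 2) ^ 0)).2 = 1} = Set.univ := by
        ext r
        simp only [mem_univ, iff_true]
        exact ratV_complete _ (four_pow _) q _ _
      rw [h2, Set.ncard_univ, Nat.card_eq_fintype_card]
      simp
    rw [h1]
    norm_num
  · intro hx P
    have h1 : wins intOracle ratV ((x.length + 2) ^ 4) ((x.length + 2) ^ 0)
        ((x.length + 2) ^ 0) x P = 0 := by
      unfold wins
      rw [Set.ncard_eq_zero (Set.toFinite _)]
      ext r
      simp only [mem_empty_iff_false, iff_false]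
      intro h
      exact hx (ratV_sound _ (four_pow _) _ _ _ h)
    rw [h1]
    norm_num

/-- The complement of the set of rational numbers has no real interactive protocol relative to any
oracle with `Δ⁰₂` slices, whatever the time bound, the completeness and the (smaller) soundness
error. -/
theorem compl_not_protocol_of (O : Set (List ℝ)) (hO : ∀ n, Dl (slice O n)) (Q : List Instr)
    (m k t : ℕ → ℕ) (c s : ℝ) (hsc : s < c) : ¬ Protocol O Q m k t ratWordsᶜ c s := by
  intro h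
  have h1 := fsigma_wins 1 (m 1) (k 1) O hO Q (t 1) c
  have h2 : {x : Fin 1 → ℝ | ∃ P : List ℝ → ℝ,
      c * 2 ^ (k 1) ≤ (wins O Q (t 1) (m 1) (k 1) (List.ofFn x) P : ℝ)}ᶜ =
      {x : Fin 1 → ℝ | List.ofFn x ∈ ratWordsᶜ}ᶜ := by
    congr 1
    ext x
    obtain ⟨-, h3, h4⟩ := h (List.ofFn x) (by simp)
    simp only [List.length_ofFn] at h3 h4
    constructor
    · rintro ⟨P, hP⟩
      by_contra h5
      have h6 := h4 h5 P
      have h7 : s * 2 ^ (k 1) < c * 2 ^ (k 1) := mul_lt_mul_of_pos_right hsc (by positivity)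
      linarith
    · intro h5
      exact h3 h5
  rw [h2] at h1
  apply not_isGδ_rat
  have h3 := h1.preimage (f := fun y : ℝ => (fun _ : Fin 1 => y)) (by fun_prop)
  have h4 : (fun y : ℝ => (fun _ : Fin 1 => y)) ⁻¹' {x : Fin 1 → ℝ | List.ofFn x ∈ ratWordsᶜ}ᶜ =
      {y : ℝ | Irrational y}ᶜ := by
    ext y
    simp only [mem_preimage, mem_compl_iff, Set.mem_ofPred_eq, not_not, ratWords, Irrational,
      mem_range]
    constructor
    · rintro ⟨q, hq⟩
      exact ⟨q, by simpa using hq.symm⟩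
    · rintro ⟨q, hq⟩
      exact ⟨q, by simp [hq]⟩
  rw [← h4]
  exact h3

theorem compl_not_protocol (Q : List Instr) (m k t : ℕ → ℕ) (c s : ℝ) (hsc : s < c) :
    ¬ Protocol intOracle Q m k t ratWordsᶜ c s :=
  compl_not_protocol_of intOracle int_slices Q m k t c s hsc

theorem compl_not_IP : ratWordsᶜ ∉ IP intOracle := by
  rintro ⟨Q, a, b, d, h⟩
  exact compl_not_protocol Q _ _ _ 1 (1 / 4) (by norm_num) h

end Pool.Agent.RIP
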